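import Mathlib
import Pool.Agent.Lib.MP_34ced1_al.Heis

namespace Pool.Agent.Results.MP_34ced1_al.NoUndistorted

open Pool.Agent.Lib.MP_34ced1_al

/-- There is a finitely generated torsion-free nilpotent group all of whose embeddings into
unitriangular groups have distorted image. -/
theorem result : ∃ (G : Type) (_ : Group G), Group.FG G ∧
    (∀ g : G, g ≠ 1 → ¬ IsOfFinOrder g) ∧ Group.IsNilpotent G ∧
    ∀ (n : ℕ) (φ : G →* UT n), Function.Injective φ → ¬ Undistorted φ.range :=
  ⟨H5, inferInstance, H5.fg, H5.torsionFree, H5.nilpotent, H5.distorted⟩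

end Pool.Agent.Results.MP_34ced1_al.NoUndistorted
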